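import Pool.Agent.W606.UB.Stm

/-!
# Analysis: from the doubling inequality to the upper bound
-/

set_option autoImplicit false

namespace KN

namespace UB

open Finset Filter Topology

theorem gr461 {μ : ℝ} (hμ : 0 < μ)
    (ht : Tendsto (fun k : ℕ => (a U (2 * k) : ℝ) ^ (1 / (2 * k : ℝ))) atTop (𝓝 μ)) :
    gr U = μ := by
  have h0 : Tendsto (fun k : ℕ => (2 * k : ℝ)) atTop atTop :=
    tendsto_natCast_atTop_atTop.const_mul_atTop (by norm_num)
  have h1 : Tendsto (fun k : ℕ => (2 * k : ℝ) ^ (1 / (2 * k : ℝ))) atTop (𝓝 1) :=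
    tendsto_rpow_div.comp h0
  have h2 : Tendsto (fun k : ℕ => (2 : ℝ) ^ (1 / (2 * k : ℝ))) atTop (𝓝 1) := by
    have h3 : Tendsto (fun k : ℕ => (1 / (2 * k : ℝ))) atTop (𝓝 0) := by
      simp only [one_div]
      exact tendsto_inv_atTop_zero.comp h0
    have h4 := (Real.continuousAt_const_rpow (a := (2 : ℝ)) (b := 0) (by norm_num)).tendsto.comp h3
    rw [Real.rpow_zero] at h4
    exact h4
  have h5 : Tendsto (fun k : ℕ => (a U (2 * k) : ℝ) ^ (1 / (2 * k : ℝ)) /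
      ((2 : ℝ) ^ (1 / (2 * k : ℝ)) * (2 * k : ℝ) ^ (1 / (2 * k : ℝ)))) atTop (𝓝 (μ / (1 * 1))) :=
    ht.div (h2.mul h1) (by norm_num)
  have h6 : (fun j : ℕ => (pq U (2 * j)) ^ (1 / (2 * j : ℝ))) =
      fun k : ℕ => (a U (2 * k) : ℝ) ^ (1 / (2 * k : ℝ)) /
      ((2 : ℝ) ^ (1 / (2 * k : ℝ)) * (2 * k : ℝ) ^ (1 / (2 * k : ℝ))) := by
    funext k
    rw [pq, Real.div_rpow (Nat.cast_nonneg _) (by positivity),
      Real.mul_rpow (by norm_num) (by positivity)]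
    push_cast
    rfl
  rw [gr, h6, h5.limsup_eq]
  simp

theorem up461 {μ y : ℝ} (hy : μ < y) (hμ : 0 < μ)
    (ht : Tendsto (fun k : ℕ => (a U (2 * k) : ℝ) ^ (1 / (2 * k : ℝ))) atTop (𝓝 μ)) :
    ∃ K₀ : ℕ, ∀ k : ℕ, K₀ ≤ k → (a U (2 * k) : ℝ) ≤ y ^ (2 * k) := by
  obtain ⟨K₀, hK⟩ := eventually_atTop.1 (ht.eventually (gt_mem_nhds hy))
  refine ⟨K₀ + 1, fun k hk => ?_⟩
  have h1 := hK k (by omega)
  have hk0 : (0 : ℝ) < 2 * k := by
    have : (0 : ℝ) < k := by exact_mod_cast (by omega : 0 < k)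
    linarith
  have h2 : (a U (2 * k) : ℝ) = ((a U (2 * k) : ℝ) ^ (1 / (2 * k : ℝ))) ^ (2 * k) := by
    rw [← Real.rpow_natCast, ← Real.rpow_mul (Nat.cast_nonneg _)]
    push_cast
    rw [one_div, inv_mul_cancel₀ hk0.ne', Real.rpow_one]
  rw [h2]
  exact pow_le_pow_left₀ (Real.rpow_nonneg (Nat.cast_nonneg _) _) h1.le _

/-- the indices -/
def ix461 (β n : ℕ) : ℕ → ℕ
  | 0 => n
  | k + 1 => 2 * (ix461 β n k + β)

theorem ix461_add (β n k : ℕ) : ix461 β n k + 2 * β = 2 ^ k * (n + 2 * β) := by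
  induction k with
  | zero => simp [ix461]
  | succ k ih =>
    rw [ix461, pow_succ, mul_comm (2 ^ k) 2, mul_assoc, ← ih]
    ring

theorem ix461_ge (β n k : ℕ) : n ≤ ix461 β n k := by
  induction k with
  | zero => exact le_refl _
  | succ k ih =>
    rw [ix461]
    omega

theorem ix461_grow (β n k : ℕ) (hn : 1 ≤ n) : k ≤ ix461 β n k := by
  induction k with
  | zero => exact Nat.zero_le _
  | succ k ih =>
    have := ix461_ge β n k
    rw [ix461]
    omega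

theorem ana_main461 (hmu : S_mu) : P_ana := by
  intro β N₀ c hc hyp
  obtain ⟨μ, hμ1, _, ht⟩ := hmu
  have hμ : 0 < μ := by linarith
  have hgr := gr461 hμ ht
  rw [hgr]
  obtain ⟨b, hb⟩ : ∃ b : ℕ → ℝ, ∀ n, b n = pq U n := ⟨_, fun _ => rfl⟩
  have hb0 : ∀ n, 0 ≤ b n := fun n => by
    rw [hb, pq]
    positivity
  have hba : ∀ n : ℕ, 1 ≤ n → (a U n : ℝ) = 2 * n * b n := fun n hn => by
    have : (0 : ℝ) < n := by exact_mod_cast hn
    rw [hb, pq]
    field_simp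
  have hble : ∀ n : ℕ, 1 ≤ n → b n ≤ a U n := fun n hn => by
    have h1 : (1 : ℝ) ≤ n := by exact_mod_cast hn
    rw [hba n hn]
    nlinarith [hb0 n]
  obtain ⟨c', hc'⟩ : ∃ c' : ℝ, c' = c / (1 + β) := ⟨_, rfl⟩
  have hc'0 : 0 < c' := by
    rw [hc']
    positivity
  have hstep : ∀ m : ℕ, N₀ ≤ m → 1 ≤ m → c' * (m : ℝ) ^ (2 / 3 : ℝ) * b m ^ 2 ≤
      b (2 * (m + β)) := by
    intro m hm hm1
    have h1 := hyp m hm
    have hm0 : (0 : ℝ) < m := by exact_mod_cast hm1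
    have hm1' : (1 : ℝ) ≤ m := by exact_mod_cast hm1
    rw [hba m hm1, hba (2 * (m + β)) (by omega)] at h1
    push_cast at h1
    obtain ⟨r, hr⟩ : ∃ r : ℝ, r = (m : ℝ) ^ (2 / 3 : ℝ) := ⟨_, rfl⟩
    obtain ⟨B, hB⟩ : ∃ B : ℝ, B = b (2 * (m + β)) := ⟨_, rfl⟩
    rw [← hr, ← hB] at h1 ⊢
    have hB0 : 0 ≤ B := by
      rw [hB]
      exact hb0 _
    have h2 : c * r * b m ^ 2 * (4 * m ^ 2) ≤ (1 + β) * B * (4 * m ^ 2) := by
      have h3 : (m : ℝ) + β ≤ (1 + β) * m := by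
        have : (0 : ℝ) ≤ β := Nat.cast_nonneg _
        nlinarith
      have h4 : m * (2 * (2 * ((m : ℝ) + β)) * B) ≤ m * (2 * (2 * ((1 + β) * m)) * B) := by
        gcongr
      nlinarith
    have h5 : c * r * b m ^ 2 ≤ (1 + β) * B := le_of_mul_le_mul_right h2 (by positivity)
    rw [hc', div_mul_eq_mul_div, div_mul_eq_mul_div, div_le_iff₀ (by positivity)]
    linarith
  have hmain : ∀ n : ℕ, N₀ ≤ n → 1 ≤ n → c' * (n : ℝ) ^ (2 / 3 : ℝ) * b n ≤ μ ^ (n + 2 * β) := by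
    intro n hn hn1
    by_contra hcon
    rw [not_le] at hcon
    obtain ⟨D, hD⟩ : ∃ D : ℝ, D = c' * (n : ℝ) ^ (2 / 3 : ℝ) := ⟨_, rfl⟩
    have hn0 : (0 : ℝ) < n := by exact_mod_cast hn1
    have hD0 : 0 < D := by
      rw [hD]
      positivity
    rw [← hD] at hcon
    have hit : ∀ k : ℕ, (D * b n) ^ (2 ^ k) ≤ D * b (ix461 β n k) := by
      intro k
      induction k with
      | zero => simp [ix461]
      | succ k ih =>
        have h1 := hstep (ix461 β n k) (hn.trans (ix461_ge β n k)) (hn1.trans (ix461_ge β n k))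
        have h2 : D * b (ix461 β n k) ^ 2 ≤ b (ix461 β n (k + 1)) := by
          refine le_trans ?_ h1
          rw [hD]
          have h3 : (n : ℝ) ^ (2 / 3 : ℝ) ≤ ((ix461 β n k : ℕ) : ℝ) ^ (2 / 3 : ℝ) :=
            Real.rpow_le_rpow hn0.le (by exact_mod_cast ix461_ge β n k) (by norm_num)
          have := hb0 (ix461 β n k)
          gcongr
        have h4 : 0 ≤ D * b n := mul_nonneg hD0.le (hb0 n)
        calc (D * b n) ^ (2 ^ (k + 1)) = ((D * b n) ^ (2 ^ k)) ^ 2 := by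
              rw [← pow_mul, pow_succ]
          _ ≤ (D * b (ix461 β n k)) ^ 2 := pow_le_pow_left₀ (pow_nonneg h4 _) ih 2
          _ = D * (D * b (ix461 β n k) ^ 2) := by ring
          _ ≤ D * b (ix461 β n (k + 1)) := by gcongr
    obtain ⟨y, hy1, hy2⟩ : ∃ y, y ^ (n + 2 * β) < D * b n ∧ μ < y := by
      have h1 : Tendsto (fun y : ℝ => y ^ (n + 2 * β)) (𝓝[>] μ) (𝓝 (μ ^ (n + 2 * β))) :=
        ((continuous_pow (n + 2 * β)).tendsto μ).mono_left nhdsWithin_le_nhds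
      exact ((h1.eventually (gt_mem_nhds hcon)).and self_mem_nhdsWithin).exists
    have hy0 : 0 < y := by linarith
    obtain ⟨K₀, hK⟩ := up461 hy2 hμ ht
    obtain ⟨q, hq⟩ : ∃ q : ℝ, q = D * b n / y ^ (n + 2 * β) := ⟨_, rfl⟩
    have hq1 : 1 < q := by
      rw [hq, one_lt_div (by positivity)]
      exact hy1
    have hfin : ∀ k : ℕ, K₀ ≤ k → q ^ (k + 1) ≤ D := by
      intro k hk
      have h1 := hit (k + 1)
      have h2 : b (ix461 β n (k + 1)) ≤ y ^ (ix461 β n (k + 1)) := by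
        have h3 := hK (ix461 β n k + β) (by have := ix461_grow β n k hn1; omega)
        have h4 := hble (ix461 β n (k + 1)) (hn1.trans (ix461_ge β n (k + 1)))
        exact h4.trans h3
      have h5 : D * b n = q * y ^ (n + 2 * β) := by
        rw [hq]
        field_simp
      rw [h5, mul_pow, ← pow_mul] at h1
      have h6 : y ^ ((n + 2 * β) * 2 ^ (k + 1)) = y ^ (ix461 β n (k + 1)) * y ^ (2 * β) := by
        rw [← pow_add, ix461_add, mul_comm]
      rw [h6] at h1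
      have hY : 0 < y ^ (ix461 β n (k + 1)) := by positivity
      have hY1 : 1 ≤ y ^ (2 * β) := one_le_pow₀ (by linarith)
      have hQ : 0 ≤ q ^ 2 ^ (k + 1) := by positivity
      have h7 : q ^ 2 ^ (k + 1) * y ^ (ix461 β n (k + 1)) ≤ D * y ^ (ix461 β n (k + 1)) := by
        calc q ^ 2 ^ (k + 1) * y ^ (ix461 β n (k + 1))
            ≤ q ^ 2 ^ (k + 1) * (y ^ (ix461 β n (k + 1)) * y ^ (2 * β)) := by
              refine mul_le_mul_of_nonneg_left ?_ hQ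
              nlinarith
          _ ≤ D * b (ix461 β n (k + 1)) := h1
          _ ≤ D * y ^ (ix461 β n (k + 1)) := by gcongr
      have h8 : q ^ 2 ^ (k + 1) ≤ D := le_of_mul_le_mul_right h7 hY
      exact (pow_le_pow_right₀ hq1.le (Nat.lt_two_pow_self).le).trans h8
    obtain ⟨k, hk1, hk2⟩ := ((((tendsto_pow_atTop_atTop_of_one_lt hq1).comp
      (tendsto_add_atTop_nat 1)).eventually_gt_atTop D).and (eventually_ge_atTop K₀)).exists
    exact absurd (hfin k hk2) (not_le.2 hk1)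
  refine ⟨μ ^ (2 * β) / c' + ∑ i ∈ range (max N₀ 1), b i * (i : ℝ) ^ (2 / 3 : ℝ) / μ ^ i,
    fun n hn => ?_⟩
  have hn0 : (0 : ℝ) < n := by exact_mod_cast hn
  have hr : (0 : ℝ) < (n : ℝ) ^ (2 / 3 : ℝ) := by positivity
  have hneg : (n : ℝ) ^ (-(2 / 3) : ℝ) = ((n : ℝ) ^ (2 / 3 : ℝ))⁻¹ := Real.rpow_neg hn0.le _
  have hterm : ∀ i : ℕ, 0 ≤ b i * (i : ℝ) ^ (2 / 3 : ℝ) / μ ^ i := fun i => by
    have := hb0 i
    positivity
  have key : b n * (n : ℝ) ^ (2 / 3 : ℝ) / μ ^ n ≤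
      μ ^ (2 * β) / c' + ∑ i ∈ range (max N₀ 1), b i * (i : ℝ) ^ (2 / 3 : ℝ) / μ ^ i := by
    rcases Nat.lt_or_ge n (max N₀ 1) with h | h
    · have h1 : b n * (n : ℝ) ^ (2 / 3 : ℝ) / μ ^ n ≤
          ∑ i ∈ range (max N₀ 1), b i * (i : ℝ) ^ (2 / 3 : ℝ) / μ ^ i :=
        single_le_sum (f := fun i : ℕ => b i * (i : ℝ) ^ (2 / 3 : ℝ) / μ ^ i)
          (fun i _ => hterm i) (mem_range.2 h)
      have h2 : 0 ≤ μ ^ (2 * β) / c' := by positivity
      linarith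
    · have h1 := hmain n ((le_max_left _ _).trans h) hn
      have h2 : b n * (n : ℝ) ^ (2 / 3 : ℝ) / μ ^ n ≤ μ ^ (2 * β) / c' := by
        rw [div_le_div_iff₀ (by positivity) hc'0, ← pow_add, add_comm (2 * β) n]
        linarith
      have h3 : 0 ≤ ∑ i ∈ range (max N₀ 1), b i * (i : ℝ) ^ (2 / 3 : ℝ) / μ ^ i :=
        sum_nonneg fun i _ => hterm i
      linarith
  rw [← hb, hneg]
  rw [div_le_iff₀ (by positivity)] at key
  rw [mul_right_comm, ← div_eq_mul_inv, le_div_iff₀ hr]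
  exact key

end UB

end KN
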