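import Pool.Agent.W606.UB.Stm

/-!
# The universal unknotted block
-/

set_option autoImplicit false

namespace KN

namespace UB

namespace Blk461

instance decSite (w : List Dir) (i : ℕ) (d : Dir) : Decidable (site w i d) :=
  inferInstanceAs (Decidable (i < w.length ∧ perp d (w.getD i .xp) ∧
    pos (w.drop (i + 1)) + vec d ∉ path w ∧
    pos (w.drop (i + 1)) + vec d + vec (w.getD i .xp) ∉ path w))

instance decSAP (w : List Dir) : Decidable (SAP w) :=
  inferInstanceAs (Decidable (4 ≤ w.length ∧ pos w = 0 ∧ (path w).tail.Nodup))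

/-- apply a list of insertions -/
def run : List Dir → List (ℕ × Dir) → List Dir
  | w, [] => w
  | w, m :: ms => run (ins w m.1 m.2) ms

/-- check a list of insertions -/
def okm : List Dir → List (ℕ × Dir) → Bool
  | _, [] => true
  | w, m :: ms => decide (SAP w) && decide (site w m.1 m.2) && okm (ins w m.1 m.2) ms

theorem same_run (hl : S_local) : ∀ (ms : List (ℕ × Dir)) (w : List Dir), okm w ms = true →
    Same (vl w) (vl (run w ms))
  | [], w, _ => Relation.EqvGen.refl _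
  | m :: ms, w, h => by
    rw [okm, Bool.and_eq_true, Bool.and_eq_true] at h
    exact Relation.EqvGen.trans _ _ _
      (hl w m.1 m.2 (of_decide_eq_true h.1.1) (of_decide_eq_true h.1.2))
      (same_run hl ms _ h.2)

/-- the insertions -/
def mvs : List (ℕ × Dir) :=
  [(3,.ym),(4,.zm),(1,.zp),(6,.xp),(3,.yp),(9,.xp),(4,.xm),(14,.zm),(15,.ym),(11,.ym),(4,.zp),
    (14,.zm),(5,.yp),(23,.xp),(5,.xp),(8,.zm),(14,.yp)]

/-- the block -/
def blkv : List Dir :=
  [.zm,.xm,.ym,.zm,.xm,.ym,.xp,.zp,.xp,.zm,.yp,.zp,.zp,.ym,.xm,.yp,.yp,.zp,.yp,.xm,.yp,.zp,.xm,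
    .zm,.ym,.zp,.xp,.zp,.xm,.yp,.xp,.xp,.ym,.zm,.xp,.zm,.ym]

theorem run_mvs : run sqw mvs = .zm :: blkv := by decide +kernel

theorem okm_mvs : okm sqw mvs = true := by decide +kernel

theorem sap_blkv : SAP (.zm :: blkv) := by decide +kernel

theorem box_blkv : ∀ p ∈ path blkv, 0 ≤ p.1 ∧ p.1 ≤ 9 ∧ (-9 ≤ p.2.1 ∧ p.2.1 ≤ 9) ∧ -9 ≤ p.2.2 ∧
    p.2.2 ≤ 10 := by decide +kernel

theorem ext_blkv : ∀ s z : Dir, perp s z → s ≠ .xm → ∃ i, i < 37 ∧
    (blkv = blkv.take i ++ z :: blkv.drop (i + 1) ∧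
      ∀ p ∈ path blkv, dt p (vec s) ≤ dt (pos (blkv.drop (i + 1))) (vec s)) := by
  decide +kernel

end Blk461

theorem P_block_main (hl : S_local) : P_block := by
  refine ⟨Blk461.blkv, ⟨Blk461.sap_blkv, fun p hp => ?_⟩, ?_, fun s z hs hz => ?_⟩
  · obtain ⟨h1, h2, h3, h4, h5⟩ := Blk461.box_blkv p hp
    refine ⟨h1, by exact_mod_cast h2, abs_le.2 ⟨?_, ?_⟩, ?_, ?_⟩
    · exact_mod_cast h3.1
    · exact_mod_cast h3.2
    · exact_mod_cast h4
    · push_cast
      linarith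
  · have h1 := Blk461.same_run hl Blk461.mvs sqw Blk461.okm_mvs
    rw [Blk461.run_mvs] at h1
    exact Or.inl (Relation.EqvGen.symm _ _ h1)
  · obtain ⟨i, _, h1, h2⟩ := Blk461.ext_blkv s z hs hz
    exact ⟨_, _, h1, h2⟩

end UB

end KN
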