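import Pool.Agent.W606.UB.Stm

/-!
# Projections of polygons
-/

set_option autoImplicit false

namespace KN

namespace UB

open Finset

theorem U461_same {w w' : List Dir} (h : Same (vl w) (vl w')) (hU : U w) : U w' := by
  rcases hU with h1 | h1
  · exact Or.inl (Relation.EqvGen.trans _ _ _ (Relation.EqvGen.symm _ _ h) h1)
  · exact Or.inr (Relation.EqvGen.trans _ _ _ (Relation.EqvGen.symm _ _ h) h1)

theorem K461_rot (h2 : T_rt) {n : ℕ} {d f : Dir} (hdf : perp d f) {w : List Dir}
    (hw : w ∈ K U n) : w.map (rt d f) ∈ K U n := by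
  rw [mem_K] at hw ⊢
  obtain ⟨h1, h3, h4⟩ := hw
  obtain ⟨h5, h6⟩ := h2 d f hdf w h3
  exact ⟨by rw [List.length_map, h1], h5, U461_same h6 h4⟩

theorem sum461_rot (h2 : T_rt) (h3 : T_rtc) (n : ℕ) {d f : Dir} (hdf : perp d f)
    (F : List Dir → ℝ) : ∑ w ∈ K U n, F (w.map (rt d f)) = ∑ w ∈ K U n, F w := by
  obtain ⟨⟨d', f', hdf', _, _, h4, h5, _, _⟩, _, _, _⟩ := h3 d f hdf
  refine Finset.sum_nbij' (fun w => w.map (rt d f)) (fun w => w.map (rt d' f'))
    (fun w hw => K461_rot h2 hdf hw) (fun w hw => K461_rot h2 hdf' hw) (fun w _ => ?_)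
    (fun w _ => ?_) (fun w _ => rfl)
  · show (w.map (rt d f)).map (rt d' f') = w
    rw [List.map_map]
    conv_rhs => rw [← List.map_id w]
    exact List.map_congr_left fun e _ => h4 e
  · show (w.map (rt d' f')).map (rt d f) = w
    rw [List.map_map]
    conv_rhs => rw [← List.map_id w]
    exact List.map_congr_left fun e _ => h5 e

theorem card461_path {w : List Dir} (hw : SAP w) : (path w).toFinset.card = w.length := by
  obtain ⟨h1, h2, h3⟩ := hw
  have h4 : (path w).toFinset = (path w).tail.toFinset := by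
    cases w with
    | nil => simp at h1
    | cons d l =>
      have h5 : pos (d :: l) = 0 := h2
      show ((pos l + vec d) :: path l).toFinset = (path l).toFinset
      rw [List.toFinset_cons]
      refine Finset.insert_eq_of_mem ?_
      rw [List.mem_toFinset]
      have h6 : pos l + vec d = 0 := h5
      rw [h6]
      exact zero_mem_path l
  rw [h4, List.toFinset_card_of_nodup h3, List.length_tail, path_length]
  omega

theorem proj_main461 (h1 : T_LW) (h2 : T_rt) (h3 : T_rtc) : P_proj := by
  intro n _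
  have hy : ∀ w : List Dir, ((path (w.map (rt .yp .zp))).map Prod.snd).toFinset =
      (path w).toFinset.image (fun p => (p.1, p.2.2)) := by
    intro w
    obtain ⟨_, _, h4, _⟩ := h3 .yp .zp (by decide)
    rw [(h4 w).2, List.map_map]
    ext q
    simp only [List.mem_toFinset, List.mem_map, Finset.mem_image, Function.comp_apply]
    refine exists_congr fun p => and_congr_right fun _ => ?_
    have : (Rp .yp .zp p).2 = (p.1, p.2.2) := by
      simp [Rp, vec, cr]
    rw [this]
  have hz : ∀ w : List Dir, ((path (w.map (rt .yp .xp))).map Prod.snd).toFinset =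
      (path w).toFinset.image (fun p => (p.1, p.2.1)) := by
    intro w
    obtain ⟨_, _, h4, _⟩ := h3 .yp .xp (by decide)
    rw [(h4 w).2, List.map_map]
    ext q
    simp only [List.mem_toFinset, List.mem_map, Finset.mem_image, Function.comp_apply]
    refine exists_congr fun p => and_congr_right fun _ => ?_
    have : (Rp .yp .xp p).2 = (p.1, p.2.1) := by
      simp [Rp, vec, cr]
    rw [this]
  have hx : ∀ w : List Dir, ((path w).map Prod.snd).toFinset =
      (path w).toFinset.image (fun p => (p.2.1, p.2.2)) := by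
    intro w
    ext q
    simp only [List.mem_toFinset, List.mem_map, Finset.mem_image]
  have e1 := sum461_rot h2 h3 n (d := .yp) (f := .zp) (by decide)
    (fun w => (((path w).map Prod.snd).toFinset.card : ℝ))
  have e2 := sum461_rot h2 h3 n (d := .yp) (f := .xp) (by decide)
    (fun w => (((path w).map Prod.snd).toFinset.card : ℝ))
  simp only [hy] at e1
  simp only [hz] at e2
  have hw : ∀ w ∈ K U n, (n : ℝ) ^ (2 / 3 : ℝ) ≤
      (((path w).map Prod.snd).toFinset.card : ℝ) +
        (((path w).toFinset.image (fun p => (p.1, p.2.2))).card : ℝ) +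
        (((path w).toFinset.image (fun p => (p.1, p.2.1))).card : ℝ) := by
    intro w hw
    rw [mem_K] at hw
    have h4 := h1 (path w).toFinset
    rw [card461_path hw.2.1, hw.1, ← hx] at h4
    have h5 : ((n : ℝ)) ^ 2 ≤ (((path w).map Prod.snd).toFinset.card : ℝ) *
        (((path w).toFinset.image (fun p => (p.1, p.2.2))).card : ℝ) *
        (((path w).toFinset.image (fun p => (p.1, p.2.1))).card : ℝ) := by
      exact_mod_cast h4
    obtain ⟨A, hA⟩ : ∃ A : ℝ, A = (((path w).map Prod.snd).toFinset.card : ℝ) := ⟨_, rfl⟩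
    obtain ⟨B, hB⟩ : ∃ B : ℝ,
      B = (((path w).toFinset.image (fun p => (p.1, p.2.2))).card : ℝ) := ⟨_, rfl⟩
    obtain ⟨C, hC⟩ : ∃ C : ℝ,
      C = (((path w).toFinset.image (fun p => (p.1, p.2.1))).card : ℝ) := ⟨_, rfl⟩
    have hA0 : 0 ≤ A := hA ▸ Nat.cast_nonneg _
    have hB0 : 0 ≤ B := hB ▸ Nat.cast_nonneg _
    have hC0 : 0 ≤ C := hC ▸ Nat.cast_nonneg _
    rw [← hA, ← hB, ← hC] at h5 ⊢
    have h6 : A * B * C ≤ (A + B + C) ^ 3 := by
      have hs : A ≤ A + B + C := by linarith
      have hs2 : B ≤ A + B + C := by linarith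
      have hs3 : C ≤ A + B + C := by linarith
      have hs0 : 0 ≤ A + B + C := by linarith
      calc A * B * C ≤ (A + B + C) * (A + B + C) * (A + B + C) :=
            mul_le_mul (mul_le_mul hs hs2 hB0 hs0) hs3 hC0 (mul_nonneg hs0 hs0)
        _ = (A + B + C) ^ 3 := by ring
    have h7 : ((n : ℝ) ^ (2 / 3 : ℝ)) ^ 3 = (n : ℝ) ^ 2 := by
      rw [← Real.rpow_natCast, ← Real.rpow_mul (Nat.cast_nonneg _)]
      norm_num
    exact le_of_pow_le_pow_left₀ (n := 3) (by norm_num) (by linarith) (by rw [h7]; linarith)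
  calc (n : ℝ) ^ (2 / 3 : ℝ) * a U n = ∑ w ∈ K U n, (n : ℝ) ^ (2 / 3 : ℝ) := by
        rw [sum_const, nsmul_eq_mul, mul_comm]
        rfl
    _ ≤ ∑ w ∈ K U n, ((((path w).map Prod.snd).toFinset.card : ℝ) +
        (((path w).toFinset.image (fun p => (p.1, p.2.2))).card : ℝ) +
        (((path w).toFinset.image (fun p => (p.1, p.2.1))).card : ℝ)) := sum_le_sum hw
    _ = 3 * ∑ w ∈ K U n, (((path w).map Prod.snd).toFinset.card : ℝ) := by
        rw [sum_add_distrib, sum_add_distrib, e1, e2]
        ring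

end UB

end KN
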