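import Pool.Agent.W606.UB.Stm

/-!
# Sliding
-/

set_option autoImplicit false

namespace KN

namespace UB

open Finset

theorem dt461_nonneg (N : Z3) : N.1 ^ 2 ≤ dt N N := by
  rw [dt]
  nlinarith [mul_self_nonneg N.2.1, mul_self_nonneg N.2.2]

theorem dt461_step (N : Z3) : dt (N + (1, 0, 0)) (N + (1, 0, 0)) = dt N N + 2 * N.1 + 1 := by
  simp only [dt, Prod.fst_add, Prod.snd_add]
  ring

theorem slide_main461 : P_slide := by
  rintro R P Q t ⟨p₀, hp₀, q₀, hq₀, h0⟩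
  have hbdd : ∃ b : ℤ, ∀ z : ℤ, (∃ p ∈ P, ∃ q ∈ Q, dt (q + (z, t) - p) (q + (z, t) - p) ≤
      ((R : ℤ) + 1) ^ 2) → z ≤ b := by
    refine ⟨R + 1 + ∑ p ∈ P, |p.1| + ∑ q ∈ Q, |q.1|, ?_⟩
    rintro z ⟨p, hp, q, hq, hz⟩
    have h1 := (dt461_nonneg _).trans hz
    have h2 : (q + (z, t) - p).1 ≤ (R : ℤ) + 1 := abs_le_of_sq_le_sq' h1 (by positivity) |>.2
    have h3 : (q + (z, t) - p).1 = q.1 + z - p.1 := rfl
    have h4 : |p.1| ≤ ∑ p ∈ P, |p.1| :=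
      single_le_sum (f := fun p : Z3 => |p.1|) (fun _ _ => abs_nonneg _) hp
    have h5 : |q.1| ≤ ∑ q ∈ Q, |q.1| :=
      single_le_sum (f := fun q : Z3 => |q.1|) (fun _ _ => abs_nonneg _) hq
    have h6 := le_abs_self p.1
    have h7 := neg_le_abs q.1
    rw [h3] at h2
    linarith
  have hinh : ∃ z : ℤ, ∃ p ∈ P, ∃ q ∈ Q, dt (q + (z, t) - p) (q + (z, t) - p) ≤
      ((R : ℤ) + 1) ^ 2 := by
    refine ⟨p₀.1 - q₀.1, p₀, hp₀, q₀, hq₀, ?_⟩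
    have h1 : q₀ + (p₀.1 - q₀.1, t) - p₀ = 0 := by
      refine Prod.ext ?_ ?_
      · show q₀.1 + (p₀.1 - q₀.1) - p₀.1 = 0
        ring
      · show q₀.2 + t - p₀.2 = 0
        rw [h0, sub_self]
    rw [h1]
    simp only [dt, Prod.fst_zero, Prod.snd_zero]
    positivity
  obtain ⟨s, hs, hmax⟩ := Int.exists_greatest_of_bdd hbdd hinh
  obtain ⟨pq, hpq, hmin⟩ := exists_min_image (P ×ˢ Q)
    (fun x => dt (x.2 + (s, t) - x.1) (x.2 + (s, t) - x.1)) ⟨(p₀, q₀), mem_product.2 ⟨hp₀, hq₀⟩⟩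
  obtain ⟨hpP, hqQ⟩ := mem_product.1 hpq
  have hle : dt (pq.2 + (s, t) - pq.1) (pq.2 + (s, t) - pq.1) ≤ ((R : ℤ) + 1) ^ 2 := by
    obtain ⟨p, hp, q, hq, hz⟩ := hs
    exact (hmin (p, q) (mem_product.2 ⟨hp, hq⟩)).trans hz
  have hbig : ∀ p ∈ P, ∀ q ∈ Q, ∀ j : ℤ, 1 ≤ j → ((R : ℤ) + 1) ^ 2 <
      dt (q + (s, t) + (j, 0, 0) - p) (q + (s, t) + (j, 0, 0) - p) := by
    intro p hp q hq j hj
    by_contra hcon
    rw [not_lt] at hcon
    have h1 : q + (s, t) + (j, 0, 0) - p = q + (s + j, t) - p := by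
      refine Prod.ext ?_ ?_
      · show q.1 + s + j - p.1 = q.1 + (s + j) - p.1
        ring
      · show q.2 + t + (0, 0) - p.2 = q.2 + t - p.2
        have : ((0, 0) : ℤ × ℤ) = 0 := rfl
        rw [this, add_zero]
    rw [h1] at hcon
    have := hmax (s + j) ⟨p, hp, q, hq, hcon⟩
    linarith
  have h1 := hbig pq.1 hpP pq.2 hqQ 1 le_rfl
  have h2 : pq.2 + (s, t) + (1, 0, 0) - pq.1 = pq.2 + (s, t) - pq.1 + (1, 0, 0) := by abel
  rw [h2, dt461_step] at h1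
  obtain ⟨N, hN⟩ : ∃ N : Z3, N = pq.2 + (s, t) - pq.1 := ⟨_, rfl⟩
  have h3 := dt461_nonneg N
  refine ⟨s, pq.1, pq.2, hpP, hqQ, ?_, hle, ?_, ?_⟩
  · rw [← hN] at h1 ⊢
    by_contra hcon
    rw [not_lt] at hcon
    have h4 : N.1 ≤ (R : ℤ) := abs_le_of_sq_le_sq' (h3.trans hcon) (by positivity) |>.2
    nlinarith
  · rw [← hN] at h1 hle ⊢
    by_contra hcon
    rw [not_le] at hcon
    have : N.1 ≤ -1 := by omega
    linarith
  · intro p' hp' q' hq' j hj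
    rcases hj.lt_or_eq with h | h
    · exact hle.trans (hbig p' hp' q' hq' j (by omega)).le
    · have h4 : q' + (s, t) + (j, 0, 0) - p' = q' + (s, t) - p' := by
        rw [← h]
        have : ((0, 0, 0) : Z3) = 0 := rfl
        rw [this, add_zero]
      rw [h4]
      exact hmin (p', q') (mem_product.2 ⟨hp', hq'⟩)

end UB

end KN
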